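import Pool.Agent.H513Z.CpU.Main

set_option autoImplicit false

/-!
# Consistently there is no `C_p`-universal compact space of weight `κ`

For every uncountable cardinal `κ`, adding `κ⁺` Cohen reals preserves all cardinals and forces the
graph principle for `κ`; and the graph principle for an infinite set `K` implies in ZFC that no
compact space is `C_p`-universal, or linearly `C_p`-universal, for the weight `|K|`.
The middle clause ties the forced sentence to the principle: the trivial forcing notion forces the
sentence iff the principle holds.
-/

namespace Pool.Agent.Results.MP_32ee98_gt.ANoUniversal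

open Cardinal Pool.Agent.H513Z.CpU

theorem result :
    (∀ κ : Cardinal.{0}, ℵ₀ < κ → ∃ (P : Type) (_ : Preorder P), Nonempty P ∧
      ∀ p : P, p ∈ CardinalsPreserved P ∧ p ∈ GraphForced P κ.out κ.out) ∧
    (∀ K : Type, () ∈ GraphForced Unit K K ↔ GraphPrinciple K K) ∧
    (∀ K : Type, Infinite K → GraphPrinciple K K → ∀ (W : Type) [TopologicalSpace W],
      ¬ CpUniversal #K W ∧ ¬ LinCpUniversal #K W) :=
  ⟨forced, fun K => trivial_iff K K, fun K _ h W _ => not_universal K h W⟩

end Pool.Agent.Results.MP_32ee98_gt.ANoUniversal
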